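import Pool.Graph.R_seed8.R169.MC.Odd
import Pool.Graph.R_seed8.R169.MC.Even
import Pool.Graph.R_seed8.R169.MC.Sgn
import Pool.Graph.R_seed8.R169.MC.Main

/-!
# The m-caliber of discriminant `pq` modulo 4 in terms of a sign

The assembly of the library's pieces (project MC) with the sign lemma as a hypothesis, so that it
applies to both parities, and the sign lemma for equal parities.
-/

set_option autoImplicit false

namespace KS6_51.MCal
open Finset Function Pool.Agent.R169.MC Dyn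

/-- the sign hypothesis: the products `h h'` are `s` modulo 4 -/
def SG (p q s : ℤ) : Prop := ∀ h h' m m' X Y : ℤ, 0 < m → 0 < m' →
  p * q = h ^ 2 + 4 * m ^ 2 → p * q = h' ^ 2 + 4 * m' ^ 2 → X ^ 2 + Y ^ 2 = q →
  p * (X ^ 2 - Y ^ 2) = h * h' - 4 * m * m' →
  (s = 1 → (h * h') % 4 = 1) ∧ (s = -1 → (h * h') % 4 = 3)

section
open Pool.Agent.R169.MC.Odd

theorem odd_gen (hDI : S_DIHO) (hW : S_WRD) (hU : S_UNEG) (hG : S_GA1) (hC : S_FIXC) (hE : S_FIXE)
    (hFi : S_FIN) (hCN : S_CN) (hN : S_NEI) (p q D s : ℤ) [NS D] (hpq : PQ p q D) (hD : D % 4 = 1)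
    (hs : s = 1 ∨ s = -1) (hSG : SG p q s) (hex : ∃ (e : Edge D) (n : ℕ), F^[n] e = al e) :
    (Nat.card (Xs D) : ℤ) ≡ 1 - s * jacobiSym q p.natAbs [ZMOD 4] := by
  obtain ⟨e0, n0, hn0⟩ := hex
  classical
  haveI : Finite (Edge D) := hFi D
  haveI : Finite (Xs D) := Subtype.finite
  haveI : Fintype (Xs D) := Fintype.ofFinite _
  obtain ⟨t0, u0, ht0, hu0, htu, _⟩ := (hU p q D hpq e0).1 n0 hn0
  have hall : ∀ e : Edge D, ∃ n : ℕ, F^[n] e = al e := by
    intro e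
    obtain ⟨n, hn, _⟩ := (hU p q D hpq e).2 t0 u0 ht0 hu0 htu
    exact ⟨n, hn⟩
  have hp0 := hpq.p0
  have hlt := hpq.hlt
  have hp4 := hpq.p4
  have hq4 := hpq.q4
  have hDpq := hpq.hD
  have hp5 : 5 ≤ p := by
    by_contra hcon
    have : p = 1 := by omega
    exact hpq.hp.not_isUnit (by rw [this]; exact isUnit_one)
  have hDbig : 5 * 5 ≤ D := by rw [hDpq]; nlinarith
  set k := (D - 1) / 4 with hk
  set k' := (q - p) / 4 with hk'
  have hk4 : D = 1 + 4 * k := by omega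
  have hk4' : q = p + 4 * k' := by omega
  have hkp : 0 < k := by omega
  have hkp' : 0 < k' := by omega
  let ec : Edge D := ⟨1, 1, k, by norm_num, hkp, by linarith⟩
  let ec' : Edge D := ⟨p, p, k', hp0, hkp', by
    rw [hDpq]; linear_combination (-p) * hk4'⟩
  have hfc : F (rh ec) = ec ∧ sg ec = 0 := (hC p q D hpq ec).2 (Or.inl ⟨rfl, rfl, rfl⟩)
  have hfc' : F (rh ec') = ec' ∧ sg ec' = 0 := (hC p q D hpq ec').2 (Or.inr ⟨rfl, rfl, rfl⟩)
  let xc : Xs D := ⟨ec, hfc.2⟩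
  let xc' : Xs D := ⟨ec', hfc'.2⟩
  have hne : xc ≠ xc' := by
    intro h
    have h1 := congrArg (fun x : Xs D => x.1.a) h
    have h2 : (1 : ℤ) = p := h1
    omega
  obtain ⟨e, e', hee, hfix⟩ := hE p q D hpq
  have hfe := (hfix e).2 (Or.inl rfl)
  have hfe' := (hfix e').2 (Or.inr rfl)
  let xe : Xs D := ⟨e, hfe.2⟩
  let xe' : Xs D := ⟨e', hfe'.2⟩
  have hne' : xe ≠ xe' := by
    intro h
    exact hee (congrArg Subtype.val h)
  have hTt : ∀ x : Xs D, Tp D hD (tp D hD x) = x ↔ (x = xc ∨ x = xc') := by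
    intro x
    have h1 : Tp D hD (tp D hD x) = x ↔ (F (rh x.1) = x.1 ∧ sg x.1 = 0) := by
      constructor
      · intro h
        refine ⟨?_, x.2⟩
        rw [← T_t_val hD x, h]
      · rintro ⟨h, _⟩
        apply Subtype.ext
        rw [T_t_val hD x, h]
    rw [h1, hC p q D hpq x.1]
    constructor
    · rintro (⟨g1, g2, g3⟩ | ⟨g1, g2, g3⟩)
      · left
        apply Subtype.ext
        exact Edge.ext g1 g2 g3
      · right
        apply Subtype.ext
        exact Edge.ext g1 g2 g3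
    · rintro (rfl | rfl)
      · left; exact ⟨rfl, rfl, rfl⟩
      · right; exact ⟨rfl, rfl, rfl⟩
  have htt : ∀ x : Xs D, tp D hD x = x ↔ (x = xe ∨ x = xe') := by
    intro x
    have h1 : tp D hD x = x ↔ (al (rh x.1) = x.1 ∧ sg x.1 = 0) := by
      constructor
      · intro h
        exact ⟨congrArg Subtype.val h, x.2⟩
      · rintro ⟨h, _⟩
        exact Subtype.ext h
    rw [h1, hfix x.1]
    constructor
    · rintro (h | h)
      · left; exact Subtype.ext h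
      · right; exact Subtype.ext h
    · rintro (rfl | rfl)
      · left; rfl
      · right; rfl
  have hodd : ∀ x : Xs D, Odd (minimalPeriod (Tp D hD) x) := by
    intro x
    obtain ⟨n, hn⟩ := hall x.1
    exact per_odd hD hn
  obtain ⟨hcard, hpos, hnsc, hcls⟩ := hDI (Xs D) (Tp D hD) (tp D hD) (tp_tp hD) (T_t_T hD)
    xc xc' xe xe' hne hne' hTt htt hodd
  have hQ := hCN hN hFi p q D hpq hD xc xc' hall rfl rfl rfl rfl hnsc hcls
  obtain ⟨j, hj⟩ := hodd xc
  obtain ⟨j', hj'⟩ := hodd xc'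
  have ej : (minimalPeriod (Tp D hD) xc - 1) / 2 = j := by omega
  have ej' : (minimalPeriod (Tp D hD) xc' - 1) / 2 = j' := by omega
  rw [ej, ej'] at hpos
  have hf : al (rh (F^[j] ec)) = F^[j] ec := by
    rcases hpos with h | h
    · exact half hD h.1 hfe.1
    · exact half hD h.1 hfe'.1
  have hf' : al (rh (F^[j'] ec')) = F^[j'] ec' := by
    rcases hpos with h | h
    · exact half hD h.2 hfe'.1
    · exact half hD h.2 hfe.1
  obtain ⟨_, T, U, hT, hU0, hTU, ht1, hau, hTT⟩ := unit_of hW hU hpq hfc.1 rfl hf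
  obtain ⟨_, T', U', hT', hU0', hTU', ht1', hau', hTT'⟩ := unit_of hW hU hpq hfc'.1 rfl hf'
  have hUU : U = U' := le_antisymm
    (unit_le hW hU hpq hD (c := xc) hj ht1 hT' hU0' hTU')
    (unit_le hW hU hpq hD (c := xc') hj' ht1' hT hU0 hTU)
  subst hUU
  have hTeq : T = T' := T_eq hT hT' hTU hTU'
  subst hTeq
  set f := F^[j] ec with hfd
  set f' := F^[j'] ec' with hfd'
  obtain ⟨⟨r1, r2, r3⟩, hNN, hdet, _, _⟩ := hW D ec j
  obtain ⟨⟨r1', r2', r3'⟩, hNN', hdet', _, _⟩ := hW D ec' j'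
  rw [← hfd] at r1 r2 r3
  rw [← hfd'] at r1' r2' r3'
  have hab : f.a = f.b := by
    have := congrArg Edge.a hf
    simp only [al, rh] at this
    exact this.symm
  have hab' : f'.a = f'.b := by
    have := congrArg Edge.a hf'
    simp only [al, rh] at this
    exact this.symm
  unfold Mt.det at hdet hdet'
  simp only [Pool.Agent.R169.MC.val, pol, ec, ec'] at r1 r2 r3 r1' r2' r3' hau hau'
  have hq1 : q % 4 = 1 := hq4
  obtain ⟨X, Y, hXY, hXY2⟩ := hG p q k k' f.a f'.a f.h f'.h T U (Wm j ec).x (Wm j ec).y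
    (Wm j ec).z (Wm j ec).t (Wm j' ec').x (Wm j' ec').y (Wm j' ec').z (Wm j' ec').t
    hp0 (by rw [← hDpq]; exact hk4) hk4' hq1 hdet hdet'
    (by rw [r1]; ring) (by rw [hab, r3]; ring) (by rw [r2]; ring)
    (by rw [r1']) (by rw [hab', r3']; ring) (by rw [r2'])
    (by linarith) hTT (by linarith) hTT'
  have hfeq := f.eq
  have hfeq' := f'.eq
  rw [← hab] at hfeq
  rw [← hab'] at hfeq'
  have hSg := hSG f.h f'.h f.a f'.a X Y f.ha f'.ha (by linear_combination -hDpq - hfeq)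
    (by linear_combination -hDpq - hfeq') hXY hXY2
  -- parity of j + j'
  have hs1 := sg_iter hD j ec
  have hs2 := sg_iter hD j' ec'
  rw [hfc.2, zero_add, ← hfd] at hs1
  rw [hfc'.2, zero_add, ← hfd'] at hs2
  have ho1 := h_odd hD f
  have ho2 := h_odd hD f'
  obtain ⟨u, hu⟩ : ∃ u, f.h = 2 * u + 1 := ⟨f.h / 2, by omega⟩
  obtain ⟨v, hv⟩ : ∃ v, f'.h = 2 * v + 1 := ⟨f'.h / 2, by omega⟩
  have hpar : (j : ℤ) % 2 = (u + (f.a + 1) * (f.a + 1)) % 2 := by
    unfold sg at hs1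
    rw [← hab] at hs1
    have e1 : (f.h - 1) / 2 = u := by omega
    rw [e1] at hs1
    have e2 : ((j : ℕ) : ZMod 2) = (((j : ℤ)) : ZMod 2) := by push_cast; rfl
    rw [e2] at hs1
    exact ((sg_eq_iff _ _).1 hs1).symm
  have hpar' : (j' : ℤ) % 2 = (v + (f'.a + 1) * (f'.a + 1)) % 2 := by
    unfold sg at hs2
    rw [← hab'] at hs2
    have e1 : (f'.h - 1) / 2 = v := by omega
    rw [e1] at hs2
    have e2 : ((j' : ℕ) : ZMod 2) = (((j' : ℤ)) : ZMod 2) := by push_cast; rfl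
    rw [e2] at hs2
    exact ((sg_eq_iff _ _).1 hs2).symm
  have hmm : (f.a * f.a) % 2 = (f'.a * f'.a) % 2 := by
    rw [hu] at hfeq
    rw [hv] at hfeq'
    have e1 : (u * (u + 1)) % 2 = 0 := by
      have := Int.even_mul_succ_self u
      exact Int.even_iff.1 this
    have e2 : (v * (v + 1)) % 2 = 0 := by
      have := Int.even_mul_succ_self v
      exact Int.even_iff.1 this
    have e3 : 4 * (u * (u + 1)) + 1 + 4 * (f.a * f.a) = D := by linear_combination hfeq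
    have e4 : 4 * (v * (v + 1)) + 1 + 4 * (f'.a * f'.a) = D := by linear_combination hfeq'
    omega
  have hjj : ((j : ℤ) + j') % 2 = (u + v) % 2 := by
    have e1 : (f.a + 1) * (f.a + 1) = f.a * f.a + 2 * f.a + 1 := by ring
    have e2 : (f'.a + 1) * (f'.a + 1) = f'.a * f'.a + 2 * f'.a + 1 := by ring
    rw [e1] at hpar
    rw [e2] at hpar'
    omega
  have hprod : f.h * f'.h = 4 * (u * v) + 2 * (u + v) + 1 := by rw [hu, hv]; ring
  have hJ : jacobiSym q p.natAbs = 1 ∨ jacobiSym q p.natAbs = -1 := by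
    apply jacobiSym.eq_one_or_neg_one
    have hcop : IsCoprime q p := by
      rw [Prime.coprime_iff_not_dvd hpq.hq]
      intro hdv
      have := Int.le_of_dvd hp0 hdv
      omega
    have := Int.isCoprime_iff_gcd_eq_one.1 hcop
    rw [Int.natAbs_of_nonneg hp0.le]
    exact this
  have hcd : (Nat.card (Xs D) : ℤ) = (Fintype.card (Xs D) : ℤ) := by
    rw [Nat.card_eq_fintype_card]
  rw [hcd]
  rw [hj, hj'] at hcard
  push_cast at hcard
  rcases hs with rfl | rfl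
  · have h1 := hSg.1 rfl
    rw [hprod] at h1
    have h2 : (u + v) % 2 = 0 := by omega
    unfold Int.ModEq at hcard hQ ⊢
    rcases hJ with hJ | hJ <;> rw [hJ] at hQ ⊢ <;> omega
  · have h1 := hSg.2 rfl
    rw [hprod] at h1
    have h2 : (u + v) % 2 = 1 := by omega
    unfold Int.ModEq at hcard hQ ⊢
    rcases hJ with hJ | hJ <;> rw [hJ] at hQ ⊢ <;> omega

end

section
open Pool.Agent.R169.MC.Even

theorem even_gen (hDI : S_DIHE) (hW : S_WRD) (hUP : S_UPOS) (hG : S_GA2) (hFC : S_FIXC)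
    (hFE : S_FIXE) (hFin : S_FIN) (p q D s : ℤ) [NS D] (hpq : PQ p q D) (hD : D % 4 = 1)
    (hs : s = 1 ∨ s = -1) (hSG : SG p q s) (hSG' : SG q p (-s))
    (hno : ¬ (∃ (e : Edge D) (n : ℕ), F^[n] e = al e)) :
    jacobiSym q p.natAbs = 1 ∧ (Nat.card (Xs D) : ℤ) ≡ 1 - s [ZMOD 4] := by
  obtain ⟨c0, c1, hc0, hc1⟩ := exists_c hpq hD
  obtain ⟨hFc0, hsc0⟩ := (hFC p q D hpq c0).2 (Or.inl hc0)
  obtain ⟨hFc1, hsc1⟩ := (hFC p q D hpq c1).2 (Or.inr hc1)
  obtain ⟨e0, e1, he01, hE⟩ := hFE p q D hpq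
  obtain ⟨hfe0, hse0⟩ := (hE e0).2 (Or.inl rfl)
  obtain ⟨hfe1, hse1⟩ := (hE e1).2 (Or.inr rfl)
  obtain ⟨hp, hq, p0, hlt, p4, q4, hDe⟩ := id hpq
  have hfinE := hFin D
  have : Finite (Xs D) := by unfold Xs; infer_instance
  have : Fintype (Xs D) := Fintype.ofFinite _
  have : DecidableEq (Xs D) := Classical.decEq _
  let C0 : Xs D := ⟨c0, hsc0⟩
  let C1 : Xs D := ⟨c1, hsc1⟩
  let E0 : Xs D := ⟨e0, hse0⟩
  let E1 : Xs D := ⟨e1, hse1⟩
  have hC01 : C0 ≠ C1 := by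
    intro h
    have h2 : c0 = c1 := congrArg Subtype.val h
    have h3 : c0.a = c1.a := by rw [h2]
    rw [hc0.1, hc1.1] at h3
    rw [← h3] at hp
    exact hp.not_isUnit isUnit_one
  have hE01 : E0 ≠ E1 := fun h => he01 (congrArg Subtype.val h)
  have hfixC : ∀ x : Xs D, Tp D hD (tp D hD x) = x ↔ (x = C0 ∨ x = C1) := by
    intro x
    constructor
    · intro h
      have h1 := congrArg Subtype.val h
      rw [T_t_val] at h1
      rcases (hFC p q D hpq x.1).1 ⟨h1, x.2⟩ with h2 | h2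
      · left; apply Subtype.ext
        apply Edge.ext
        · exact h2.1.trans hc0.1.symm
        · exact h2.2.1.trans hc0.2.1.symm
        · exact h2.2.2.trans hc0.2.2.symm
      · right; apply Subtype.ext
        apply Edge.ext
        · exact h2.1.trans hc1.1.symm
        · exact h2.2.1.trans hc1.2.1.symm
        · exact h2.2.2.trans hc1.2.2.symm
    · rintro (h | h) <;> rw [h] <;> apply Subtype.ext <;> rw [T_t_val]
      · exact hFc0
      · exact hFc1
  have hfixE : ∀ x : Xs D, tp D hD x = x ↔ (x = E0 ∨ x = E1) := by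
    intro x
    constructor
    · intro h
      have h1 : al (rh x.1) = x.1 := congrArg Subtype.val h
      rcases (hE x.1).1 ⟨h1, x.2⟩ with h2 | h2
      · left; exact Subtype.ext h2
      · right; exact Subtype.ext h2
    · rintro (h | h) <;> rw [h] <;> apply Subtype.ext
      · exact hfe0
      · exact hfe1
  have hev : ∀ x : Xs D, Even (minimalPeriod (Tp D hD) x) := by
    intro x
    rcases Nat.even_or_odd (minimalPeriod (Tp D hD) x) with h | h
    · exact h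
    · exfalso
      apply hno
      refine ⟨x.1, minimalPeriod (Tp D hD) x, ?_⟩
      have h1 : (Tp D hD)^[minimalPeriod (Tp D hD) x] x = x :=
        Function.isPeriodicPt_minimalPeriod _ _
      have h2 := congrArg Subtype.val h1
      rw [T_iter, if_neg (by rw [Nat.odd_iff] at h; omega)] at h2
      rw [← h2, al_al, h2]
  obtain ⟨hcard, hTc, hTe⟩ := hDI (Xs D) (Tp D hD) (tp D hD) (tp_tp hD) (T_t_T hD) C0 C1 E0 E1
    hC01 hE01 hfixC hfixE hev
  have hper : ∀ x : Xs D, 0 < minimalPeriod (Tp D hD) x := by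
    intro x
    apply Function.minimalPeriod_pos_of_mem_periodicPts
    exact (Tp D hD).injective.mem_periodicPts x
  obtain ⟨k1, hk1⟩ : ∃ k, minimalPeriod (Tp D hD) C0 = 2 * k :=
    (even_iff_exists_two_mul).1 (hev C0)
  obtain ⟨k2, hk2⟩ : ∃ k, minimalPeriod (Tp D hD) E0 = 2 * k :=
    (even_iff_exists_two_mul).1 (hev E0)
  have hk1p : 0 < k1 := by have := hper C0; omega
  have hk2p : 0 < k2 := by have := hper E0; omega
  rw [hk1, Nat.mul_div_cancel_left _ (by norm_num)] at hTc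
  rw [hk2, Nat.mul_div_cancel_left _ (by norm_num)] at hTe
  have hret : F^[2 * k1] c0 = c0 := by
    have h1 : (Tp D hD)^[2 * k1] C0 = C0 := by
      rw [← hk1]; exact Function.isPeriodicPt_minimalPeriod _ _
    have h2 := congrArg Subtype.val h1
    rw [T_iter, if_pos (by omega)] at h2
    exact h2
  have hfix : al (rh (F^[k2] e0)) = F^[k2] e0 := by
    have h2 := congrArg Subtype.val hTe
    rw [T_iter] at h2
    by_cases h : k2 % 2 = 0
    · rw [if_pos h] at h2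
      have h3 : F^[k2] e0 = e1 := h2
      rw [h3, hfe1]
    · rw [if_neg h] at h2
      have h3 : F^[k2] e0 = al e1 := by
        have h4 : al (F^[k2] e0) = e1 := h2
        rw [← h4, al_al]
      rw [h3, ← al_rh, hfe1]
  have hrs := rs_exist hW hpq hD c0 c1 hc0 hc1 hFc0 hFc1 k1 hk1p hret
  have hFk1 : (k1 % 2 = 0 → F^[k1] c0 = c1) ∧ (k1 % 2 = 1 → F^[k1] c0 = al c1) := by
    have h2 := congrArg Subtype.val hTc
    rw [T_iter] at h2
    constructor
    · intro h; rw [if_pos h] at h2; exact h2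
    · intro h
      rw [if_neg (by omega)] at h2
      have h4 : al (F^[k1] c0) = c1 := h2
      rw [← h4, al_al]
  have hab := fix_ab hfe0
  have hab' := fix_ab hfix
  have hkp := k2par hD e0 hse0 k2 hab hab'
  have hm0 := e0.ha
  have hm1 := (F^[k2] e0).ha
  have hD0 : p * q = e0.h ^ 2 + 4 * e0.a ^ 2 := by
    have := e0.eq
    rw [← hab] at this
    linear_combination -hDe - this
  have hD1 : p * q = (F^[k2] e0).h ^ 2 + 4 * (F^[k2] e0).a ^ 2 := by
    have := (F^[k2] e0).eq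
    rw [← hab'] at this
    linear_combination -hDe - this
  have hcardZ : (Nat.card (Xs D) : ℤ) ≡ 2 * (k1 : ℤ) + 2 * (k2 : ℤ) [ZMOD 4] := by
    rw [Nat.card_eq_fintype_card]
    rw [hk1, hk2] at hcard
    push_cast at hcard
    exact hcard
  unfold Int.ModEq at hcardZ ⊢
  rcases Nat.mod_two_eq_zero_or_one k1 with hk | hk
  · obtain ⟨r, s', heq, hr, hs', hy⟩ := hrs.1 (hFk1.1 hk)
    have hj := jac hpq r s' 1 (Or.inl rfl) heq
    obtain ⟨X, Y, hX, hY⟩ := (tail hD hW hUP hG hpq C0 E0 hc0.1 k2 hk2 hk2p hfix hfe0 r s' 1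
      (Or.inl rfl) heq hr hs' (by rw [hk1]; exact hy)).1 rfl
    have hsg := hSG e0.h (F^[k2] e0).h e0.a (F^[k2] e0).a X Y hm0 hm1 hD0 hD1 hX hY
    refine ⟨hj, ?_⟩
    rcases hs with rfl | rfl
    · have := hkp.1 (hsg.1 rfl)
      omega
    · have := hkp.2 (hsg.2 rfl)
      omega
  · obtain ⟨r, s', heq, hr, hs', hy⟩ := hrs.2 (hFk1.2 hk)
    have hj := jac hpq r s' (-1) (Or.inr rfl) heq
    obtain ⟨X, Y, hX, hY⟩ := (tail hD hW hUP hG hpq C0 E0 hc0.1 k2 hk2 hk2p hfix hfe0 r s' (-1)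
      (Or.inr rfl) heq hr hs' (by rw [hk1]; exact hy)).2 rfl
    have hsg := hSG' e0.h (F^[k2] e0).h e0.a (F^[k2] e0).a X Y hm0 hm1
      (by rw [mul_comm, hD0]) (by rw [mul_comm, hD1]) hX hY
    refine ⟨hj, ?_⟩
    rcases hs with rfl | rfl
    · have := hkp.2 (hsg.2 rfl)
      omega
    · have := hkp.1 (hsg.1 (by norm_num))
      omega

end

theorem par4 (r x y : ℤ) (hr : r % 4 = 1) (hxy : r = x ^ 2 + y ^ 2) :
    (x % 2 = 0 → y % 2 = 1) ∧ (x % 2 = 1 → y % 2 = 0) := by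
  constructor
  · intro hx
    rcases Int.emod_two_eq_zero_or_one y with g | g
    · exfalso
      obtain ⟨x', rfl⟩ : ∃ x', x = 2 * x' := ⟨x / 2, by omega⟩
      obtain ⟨y', rfl⟩ : ∃ y', y = 2 * y' := ⟨y / 2, by omega⟩
      have : r = 4 * (x' ^ 2 + y' ^ 2) := by rw [hxy]; ring
      omega
    · exact g
  · intro hx
    rcases Int.emod_two_eq_zero_or_one y with g | g
    · exact g
    · exfalso
      obtain ⟨x', rfl⟩ : ∃ x', x = 2 * x' + 1 := ⟨x / 2, by omega⟩
      obtain ⟨y', rfl⟩ : ∃ y', y = 2 * y' + 1 := ⟨y / 2, by omega⟩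
      have : r = 4 * (x' ^ 2 + x' + y' ^ 2 + y') + 2 := by rw [hxy]; ring
      omega

/-- opposite parities: the library's sign lemma -/
theorem SG_ne {p q a b c d s : ℤ} (hp : Prime p) (hq : Prime q) (hpq : p ≠ q) (hp4 : p % 4 = 1)
    (hq4 : q % 4 = 1) (ha : 0 < a) (hab : a < b) (hpe : p = a ^ 2 + b ^ 2) (hc : 0 < c)
    (hcd : c < d) (hqe : q = c ^ 2 + d ^ 2) (hpar : (a + c) % 2 = 1)
    (h1 : s = 1 → a % 2 = 0) (h2 : s = -1 → a % 2 = 1) : SG p q s := by
  intro h h' m m' X Y hm hm' e1 e2 e3 e4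
  have := Sgn.main p q a b c d h h' m m' X Y hp hq hpq hp4 hq4 ha hab hpe hc hcd hqe hpar hm hm'
    e1 e2 e3 e4
  exact ⟨fun hs => this.1 (h1 hs), fun hs => this.2 (h2 hs)⟩

/-- equal parities: the sign is decided by `a d - b c` -/
theorem SG_eq {p q a b c d s : ℤ} (hp : Prime p) (hq : Prime q) (hpq : p ≠ q) (hp4 : p % 4 = 1)
    (hq4 : q % 4 = 1) (ha : 0 < a) (hab : a < b) (hpe : p = a ^ 2 + b ^ 2) (hc : 0 < c)
    (hcd : c < d) (hqe : q = c ^ 2 + d ^ 2) (hpar : (a + c) % 2 = 0)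
    (h1 : s = 1 → (a % 2 = 0 ∧ a * d < b * c) ∨ (a % 2 = 1 ∧ b * c < a * d))
    (h2 : s = -1 → (a % 2 = 0 ∧ b * c < a * d) ∨ (a % 2 = 1 ∧ a * d < b * c)) : SG p q s := by
  intro h h' m m' X Y hm hm' e1 e2 e3 e4
  have hb : 0 < b := ha.trans hab
  have hd : 0 < d := hc.trans hcd
  have hmm : 0 < 4 * m * m' := by positivity
  have had : 0 < a * d := mul_pos ha hd
  have hbc : 0 < b * c := mul_pos hb hc
  rcases Int.emod_two_eq_zero_or_one a with ha2 | ha2
  · have hb2 := (par4 p a b hp4 hpe).1 ha2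
    have hc2 : c % 2 = 0 := by omega
    have hd2 := (par4 q c d hq4 hqe).1 hc2
    have hcore := Sgn.core (a1 := b) (b1 := a) (c1 := d) (d1 := c) hp hq hpq hb hd hb2 ha2 hd2 hc2
      (by rw [hpe]; ring) (by rw [hqe]; ring) hm hm' e1 e2 e3 e4
    obtain ⟨b', rfl⟩ : ∃ x', b = 2 * x' + 1 := ⟨b / 2, by omega⟩
    obtain ⟨a', rfl⟩ : ∃ x', a = 2 * x' := ⟨a / 2, by omega⟩
    obtain ⟨d', rfl⟩ : ∃ x', d = 2 * x' + 1 := ⟨d / 2, by omega⟩
    have key : (2 * b' + 1) ^ 2 * (2 * d' + 1) ^ 2 - (2 * a') ^ 2 * c ^ 2 =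
        4 * (4 * (b' ^ 2 + b') * (d' ^ 2 + d') + (b' ^ 2 + b') + (d' ^ 2 + d') - a' ^ 2 * c ^ 2) + 1 := by
      ring
    refine ⟨fun hs => ?_, fun hs => ?_⟩
    · rcases h1 hs with ⟨-, hlt⟩ | ⟨h0, -⟩
      · rcases hcore with ⟨g1, -⟩ | ⟨-, g2⟩
        · rw [g1, key]; omega
        · exfalso
          have f1 := pow_lt_pow_left₀ hlt had.le two_ne_zero
          rw [mul_pow, mul_pow] at f1
          linarith
      · omega
    · rcases h2 hs with ⟨-, hlt⟩ | ⟨h0, -⟩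
      · rcases hcore with ⟨-, g2⟩ | ⟨g1, -⟩
        · exfalso
          have f1 := pow_lt_pow_left₀ hlt hbc.le two_ne_zero
          rw [mul_pow, mul_pow] at f1
          linarith
        · rw [g1, key]; omega
      · omega
  · have hb2 := (par4 p a b hp4 hpe).2 ha2
    have hc2 : c % 2 = 1 := by omega
    have hd2 := (par4 q c d hq4 hqe).2 hc2
    have hcore := Sgn.core (a1 := a) (b1 := b) (c1 := c) (d1 := d) hp hq hpq ha hc ha2 hb2 hc2 hd2
      hpe hqe hm hm' e1 e2 e3 e4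
    obtain ⟨a', rfl⟩ : ∃ x', a = 2 * x' + 1 := ⟨a / 2, by omega⟩
    obtain ⟨b', rfl⟩ : ∃ x', b = 2 * x' := ⟨b / 2, by omega⟩
    obtain ⟨c', rfl⟩ : ∃ x', c = 2 * x' + 1 := ⟨c / 2, by omega⟩
    have key : (2 * a' + 1) ^ 2 * (2 * c' + 1) ^ 2 - (2 * b') ^ 2 * d ^ 2 =
        4 * (4 * (a' ^ 2 + a') * (c' ^ 2 + c') + (a' ^ 2 + a') + (c' ^ 2 + c') - b' ^ 2 * d ^ 2) + 1 := by
      ring
    refine ⟨fun hs => ?_, fun hs => ?_⟩
    · rcases h1 hs with ⟨h0, -⟩ | ⟨-, hlt⟩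
      · omega
      · rcases hcore with ⟨g1, -⟩ | ⟨-, g2⟩
        · rw [g1, key]; omega
        · exfalso
          have f1 := pow_lt_pow_left₀ hlt hbc.le two_ne_zero
          rw [mul_pow, mul_pow] at f1
          linarith
    · rcases h2 hs with ⟨h0, -⟩ | ⟨-, hlt⟩
      · omega
      · rcases hcore with ⟨-, g2⟩ | ⟨g1, -⟩
        · exfalso
          have f1 := pow_lt_pow_left₀ hlt had.le two_ne_zero
          rw [mul_pow, mul_pow] at f1
          linarith
        · rw [g1, key]; omega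

/-- the final congruence in terms of the sign -/
theorem main_gen (hB : S_BIJ) (hFi : S_FIN) (hDO : S_DIHO) (hDE : S_DIHE) (hW : S_WRD)
    (hUN : S_UNEG) (hUP : S_UPOS) (hG1 : S_GA1) (hG2 : S_GA2) (hC : S_FIXC) (hE : S_FIXE)
    (hCN : S_CN) (hN : S_NEI) (p q : ℕ) (hp : p.Prime) (hq : q.Prime) (hpq : p < q)
    (hp4 : p % 4 = 1) (hq4 : q % 4 = 1) (s : ℤ) (hs : s = 1 ∨ s = -1)
    (hSG : SG p q s) (hSG' : SG q p (-s)) :
    (kap (p * q) : ℤ) ≡ 1 - s * jacobiSym q p [ZMOD 4] := by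
  have hPQ : PQ (p : ℤ) (q : ℤ) ((p : ℤ) * q) :=
    ⟨Nat.prime_iff_prime_int.1 hp, Nat.prime_iff_prime_int.1 hq, by exact_mod_cast hp.pos,
      by exact_mod_cast hpq, by omega, by omega, rfl⟩
  have : NS ((p : ℤ) * q) := ⟨Main.ns_of hPQ⟩
  have := hFi ((p : ℤ) * q)
  have hD : ((p : ℤ) * q) % 4 = 1 := by
    rw [Int.mul_emod]
    have h1 : (p : ℤ) % 4 = 1 := by omega
    have h2 : (q : ℤ) % 4 = 1 := by omega
    rw [h1, h2]; norm_num
  have hk : kap ((p : ℤ) * q) = Nat.card (Xs ((p : ℤ) * q)) := by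
    have h1 := hB p q _ hPQ
    rw [Main.card_Xs hD] at h1
    omega
  rw [hk]
  have hna : (p : ℤ).natAbs = p := Int.natAbs_natCast p
  by_cases hex : ∃ (e : Edge ((p : ℤ) * q)) (n : ℕ), F^[n] e = al e
  · have h := odd_gen hDO hW hUN hG1 hC hE hFi hCN hN p q _ s hPQ hD hs hSG hex
    rw [hna] at h
    exact h
  · obtain ⟨hJ, h⟩ := even_gen hDE hW hUP hG2 hC hE hFi p q _ s hPQ hD hs hSG hSG' hex
    rw [hna] at hJ
    rw [hJ, mul_one]
    exact h

end KS6_51.MCal
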